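import Mathlib
import Pool.Agent.Helper30.NIFinal

set_option autoImplicit false

open Filter Set
open scoped Topology

namespace Pool.Agent.Helper30.BK

open Pool.Agent.Helper30

/-- For a nontrivial real normed space, the number `nidx E` really is the greatest lower bound of
the numerical radii (least upper bounds) of the operators of norm one. -/
theorem isGLB_nidx (E : Type) [NormedAddCommGroup E] [NormedSpace ℝ E] [Nontrivial E] :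
    IsGLB {v : ℝ | ∃ T : E →L[ℝ] E, ‖T‖ = 1 ∧
      IsLUB {r : ℝ | ∃ (x : E) (φ : E →L[ℝ] ℝ), ‖x‖ = 1 ∧ ‖φ‖ = 1 ∧ φ x = 1 ∧
        r = |φ (T x)|} v} (nidx E) := by
  obtain ⟨x0, hx0⟩ := exists_ne (0 : E)
  have hx1 : ‖‖x0‖⁻¹ • x0‖ = 1 := by
    rw [norm_smul, norm_inv, norm_norm, inv_mul_cancel₀ (norm_ne_zero_iff.2 hx0)]
  have hx10 : ‖x0‖⁻¹ • x0 ≠ 0 := by
    intro h
    rw [h, norm_zero] at hx1
    exact zero_ne_one hx1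
  obtain ⟨g, hg1, hg2⟩ := exists_dual_vector ℝ _ (norm_ne_zero_iff.2 hx10)
  have hgx : g (‖x0‖⁻¹ • x0) = 1 := by
    rw [hg2, hx1]
    simp
  have hne : Nonempty {p : E × (E →L[ℝ] ℝ) // ‖p.1‖ = 1 ∧ ‖p.2‖ = 1 ∧ p.2 p.1 = 1} :=
    ⟨⟨(‖x0‖⁻¹ • x0, g), hx1, hg1, hgx⟩⟩
  have hneT : Nonempty {T : E →L[ℝ] E // ‖T‖ = 1} :=
    ⟨⟨ContinuousLinearMap.id ℝ E, ContinuousLinearMap.norm_id⟩⟩
  -- the numerical radius is a least upper bound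
  have hLUB : ∀ T : {T : E →L[ℝ] E // ‖T‖ = 1},
      IsLUB {r : ℝ | ∃ (x : E) (φ : E →L[ℝ] ℝ), ‖x‖ = 1 ∧ ‖φ‖ = 1 ∧ φ x = 1 ∧
        r = |φ (T.1 x)|}
        (⨆ p : {p : E × (E →L[ℝ] ℝ) // ‖p.1‖ = 1 ∧ ‖p.2‖ = 1 ∧ p.2 p.1 = 1},
            ‖p.1.2 (T.1 p.1.1)‖) := by
    intro T
    have hbdd : BddAbove (Set.range (fun p : {p : E ×
        (E →L[ℝ] ℝ) // ‖p.1‖ = 1 ∧ ‖p.2‖ = 1 ∧ p.2 p.1 = 1} =>
            ‖p.1.2 (T.1 p.1.1)‖)) := by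
      refine ⟨1, ?_⟩
      rintro _ ⟨p, rfl⟩
      calc ‖p.1.2 (T.1 p.1.1)‖ ≤ ‖p.1.2‖ * ‖T.1 p.1.1‖ := p.1.2.le_opNorm _
        _ ≤ ‖p.1.2‖ * (‖T.1‖ * ‖p.1.1‖) :=
            mul_le_mul_of_nonneg_left (T.1.le_opNorm _) (norm_nonneg _)
        _ = 1 := by rw [p.2.1, p.2.2.1, T.2]; norm_num
    have h1 := isLUB_ciSup hbdd
    have h2 : {r : ℝ | ∃ (x : E) (φ : E →L[ℝ] ℝ), ‖x‖ = 1 ∧ ‖φ‖ = 1 ∧ φ x = 1 ∧
        r = |φ (T.1 x)|} = Set.range (fun p : {p : E ×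
        (E →L[ℝ] ℝ) // ‖p.1‖ = 1 ∧ ‖p.2‖ = 1 ∧ p.2 p.1 = 1} =>
            ‖p.1.2 (T.1 p.1.1)‖) := by
      ext r
      constructor
      · rintro ⟨x, φ, hx, hφ, hφx, rfl⟩
        exact ⟨⟨(x, φ), hx, hφ, hφx⟩, rfl⟩
      · rintro ⟨p, rfl⟩
        exact ⟨p.1.1, p.1.2, p.2.1, p.2.2.1, p.2.2.2, rfl⟩
    rw [h2]
    exact h1
  have hset : {v : ℝ | ∃ T : E →L[ℝ] E, ‖T‖ = 1 ∧
      IsLUB {r : ℝ | ∃ (x : E) (φ : E →L[ℝ] ℝ), ‖x‖ = 1 ∧ ‖φ‖ = 1 ∧ φ x = 1 ∧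
        r = |φ (T x)|} v} =
      Set.range (fun T : {T : E →L[ℝ] E // ‖T‖ = 1} =>
        ⨆ p : {p : E × (E →L[ℝ] ℝ) // ‖p.1‖ = 1 ∧ ‖p.2‖ = 1 ∧ p.2 p.1 = 1},
            ‖p.1.2 (T.1 p.1.1)‖) := by
    ext v
    constructor
    · rintro ⟨T, hT, hv⟩
      exact ⟨⟨T, hT⟩, (hLUB ⟨T, hT⟩).unique hv⟩
    · rintro ⟨T, rfl⟩
      exact ⟨T.1, T.2, hLUB T⟩
  rw [hset]
  refine isGLB_ciInf ⟨0, ?_⟩
  rintro _ ⟨T, rfl⟩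
  exact Real.iSup_nonneg (fun p => norm_nonneg _)

instance nontrivial_XX : Nontrivial XX := by
  refine ⟨⟨e0, 0, fun h => ?_⟩⟩
  have h1 := e0_norm_eq
  rw [h, norm_zero] at h1
  exact zero_ne_one h1

instance nontrivial_XD : Nontrivial XD := by
  have h0 : ‖e0‖ ≠ 0 := by
    rw [e0_norm_eq]
    exact one_ne_zero
  obtain ⟨g, hg1, _⟩ := exists_dual_vector ℝ e0 h0
  refine ⟨⟨g, 0, fun h => ?_⟩⟩
  rw [h, norm_zero] at hg1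
  exact zero_ne_one hg1

end Pool.Agent.Helper30.BK
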