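import Mathlib
import Pool.Agent.Helper30.NISpace

set_option autoImplicit false

open MeasureTheory Filter Set
open scoped Topology NNReal ENNReal Function

namespace Pool.Agent.Helper30.BK

/-- A sum of Bochner integrable functions with summable norms is integrable. -/
theorem integrable_tsum_of {E : Type*} [NormedAddCommGroup E] [NormedSpace ℝ E] [CompleteSpace E]
    {ι : Type*} [Countable ι] {Ω : Type*} [MeasurableSpace Ω] {μ : Measure Ω} {F : ι → Ω → E}
    (hF : ∀ i, Integrable (F i) μ) (hs : Summable fun i => ∫ a, ‖F i a‖ ∂μ) :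
    Integrable (fun a => ∑' i, F i a) μ := by
  have e1 : ∀ i, ∫⁻ a, ‖F i a‖ₑ ∂μ = ENNReal.ofReal (∫ a, ‖F i a‖ ∂μ) := by
    intro i
    rw [ofReal_integral_norm_eq_lintegral_enorm (hF i)]
  have h1 : ∑' i, ∫⁻ a, ‖F i a‖ₑ ∂μ ≠ ∞ := by
    rw [tsum_congr e1, ← ENNReal.ofReal_tsum_of_nonneg
      (fun i => integral_nonneg (fun a => norm_nonneg _)) hs]
    exact ENNReal.ofReal_ne_top
  have hm : ∀ i, AEMeasurable (fun a => ‖F i a‖ₑ) μ := fun i => (hF i).1.enorm
  have h2 : ∫⁻ a, ∑' i, ‖F i a‖ₑ ∂μ ≠ ∞ := by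
    rw [lintegral_tsum hm]
    exact h1
  have h3 : ∀ᵐ a ∂μ, ∑' i, ‖F i a‖ₑ < ∞ := ae_lt_top' (AEMeasurable.tsum hm) h2
  have h4 : ∀ᵐ a ∂μ, Summable (fun i => F i a) := by
    filter_upwards [h3] with a ha
    have : Summable (fun i => ‖F i a‖₊) := by
      rw [← ENNReal.tsum_coe_ne_top_iff_summable]
      exact ha.ne
    exact Summable.of_nnnorm this
  refine ⟨?_, ?_⟩
  · refine aestronglyMeasurable_of_tendsto_ae (u := (atTop : Filter (Finset ι)))
      (f := fun s a => ∑ i ∈ s, F i a) ?_ ?_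
    · intro s
      exact Finset.aestronglyMeasurable_fun_sum _ (fun i _ => (hF i).1)
    · filter_upwards [h4] with a ha
      exact ha.hasSum
  · refine lt_of_le_of_lt (lintegral_mono (fun a => ?_)) (lt_top_iff_ne_top.2 h2)
    exact enorm_tsum_le_tsum_enorm

/-- Signed-partition bound: if the real measures `A ↦ ξ i (m A)` have densities `f i`, then
the sum of the `L¹` norms over a finite set of indices is controlled by the variation of `m`. -/
theorem sum_integral_abs_le {X : Type*} [NormedAddCommGroup X] [NormedSpace ℝ X]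
    {ι : Type*} (ξ : ι → X →L[ℝ] ℝ) (C : ℝ) (hC : 0 ≤ C)
    (hξ : ∀ (s : Finset ι) (x : X), ∑ i ∈ s, |ξ i x| ≤ C * ‖x‖)
    {Ω : Type*} [MeasurableSpace Ω] (μ : Measure Ω) (m : VectorMeasure Ω X)
    (V : ℝ) (hV : ∀ (n : ℕ) (A : Fin n → Set Ω), (∀ i, MeasurableSet (A i)) →
      Pairwise (Disjoint on A) → ∑ i, ‖m (A i)‖ ≤ V)
    (f : ι → Ω → ℝ) (hfm : ∀ i, Measurable (f i)) (hfi : ∀ i, Integrable (f i) μ)
    (hf : ∀ i A, MeasurableSet A → ξ i (m A) = ∫ x in A, f i x ∂μ) (s : Finset ι) :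
    ∑ i ∈ s, ∫ x, |f i x| ∂μ ≤ C * V := by
  classical
  let A : (s → Bool) → Set Ω := fun σ => ⋂ i : s, {x | (0 ≤ f i x ↔ σ i = true)}
  have hAm : ∀ σ, MeasurableSet (A σ) := by
    intro σ
    refine MeasurableSet.iInter (fun i => ?_)
    by_cases hσ : σ i = true
    · have : {x | (0 ≤ f i x ↔ σ i = true)} = {x | 0 ≤ f i x} := by
        ext x; simp [hσ]
      rw [this]
      exact measurableSet_le measurable_const (hfm i)
    · have : {x | (0 ≤ f i x ↔ σ i = true)} = {x | f i x < 0} := by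
        ext x; simp [hσ]
      rw [this]
      exact measurableSet_lt (hfm i) measurable_const
  have hAd : Pairwise (Disjoint on A) := by
    intro σ τ hστ
    rw [Function.onFun, Set.disjoint_left]
    intro x hx hy
    refine hστ ?_
    funext i
    have h1 : (0 ≤ f i x ↔ σ i = true) := Set.mem_iInter.1 hx i
    have h2 : (0 ≤ f i x ↔ τ i = true) := Set.mem_iInter.1 hy i
    rcases Bool.eq_false_or_eq_true (σ i) with h | h <;>
      rcases Bool.eq_false_or_eq_true (τ i) with h' | h' <;> simp_all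
  have hAu : (⋃ σ, A σ) = univ := by
    refine Set.eq_univ_of_forall (fun x => ?_)
    refine Set.mem_iUnion.2 ⟨fun i => decide (0 ≤ f i x), ?_⟩
    refine Set.mem_iInter.2 (fun i => ?_)
    simp
  have hint : ∀ i : s, ∫ x, |f i x| ∂μ = ∑ σ, ‖ξ i (m (A σ))‖ := by
    intro i
    have h1 : ∫ x, |f i x| ∂μ = ∫ x in ⋃ σ, A σ, |f i x| ∂μ := by
      rw [hAu, Measure.restrict_univ]
    rw [h1, integral_iUnion_fintype hAm hAd (fun σ => (hfi i).abs.integrableOn)]
    refine Finset.sum_congr rfl (fun σ _ => ?_)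
    rw [hf i (A σ) (hAm σ)]
    by_cases hσ : σ i = true
    · have h2 : ∀ x ∈ A σ, |f i x| = f i x := by
        intro x hx
        have h3 : (0 ≤ f i x ↔ σ i = true) := Set.mem_iInter.1 hx i
        exact abs_of_nonneg (h3.2 hσ)
      rw [setIntegral_congr_fun (hAm σ) h2, Real.norm_eq_abs, abs_of_nonneg]
      refine setIntegral_nonneg (hAm σ) (fun x hx => ?_)
      have h3 : (0 ≤ f i x ↔ σ i = true) := Set.mem_iInter.1 hx i
      exact h3.2 hσ
    · have h4 : ∀ x ∈ A σ, f i x < 0 := by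
        intro x hx
        have h3 : (0 ≤ f i x ↔ σ i = true) := Set.mem_iInter.1 hx i
        by_contra hcon
        exact hσ (h3.1 (not_lt.1 hcon))
      have h2 : ∀ x ∈ A σ, |f i x| = - f i x := fun x hx => abs_of_neg (h4 x hx)
      rw [setIntegral_congr_fun (hAm σ) h2, integral_neg, Real.norm_eq_abs, abs_of_nonpos]
      exact setIntegral_nonpos (hAm σ) (fun x hx => (h4 x hx).le)
  calc ∑ i ∈ s, ∫ x, |f i x| ∂μ = ∑ i : s, ∫ x, |f i x| ∂μ := (Finset.sum_coe_sort s _).symm
    _ = ∑ i : s, ∑ σ, ‖ξ i (m (A σ))‖ := Finset.sum_congr rfl (fun i _ => hint i)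
    _ = ∑ σ, ∑ i : s, ‖ξ i (m (A σ))‖ := Finset.sum_comm
    _ ≤ ∑ σ, C * ‖m (A σ)‖ := by
        refine Finset.sum_le_sum (fun σ _ => ?_)
        have := hξ s (m (A σ))
        rw [← Finset.sum_coe_sort s] at this
        exact this
    _ = C * ∑ σ, ‖m (A σ)‖ := (Finset.mul_sum _ _ _).symm
    _ ≤ C * V := by
        refine mul_le_mul_of_nonneg_left ?_ hC
        let eqv := Fintype.equivFin (s → Bool)
        have h5 := hV _ (fun j => A (eqv.symm j)) (fun j => hAm _)
          (fun j k hjk => hAd (fun h => hjk (eqv.symm.injective h)))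
        rw [← Equiv.sum_comp eqv.symm (fun σ => ‖m (A σ)‖)]
        exact h5

/-- The Radon-Nikodym theorem for a space with a (boundedly complete, `ℓ¹`-like) system of
coordinates. -/
theorem rnp_of_coord {X : Type*} [NormedAddCommGroup X] [NormedSpace ℝ X] [CompleteSpace X]
    {ι : Type*} [Countable ι] (ξ : ι → X →L[ℝ] ℝ) (e : ι → X) (C : ℝ) (hC : 0 ≤ C)
    (he : ∀ i, ‖e i‖ ≤ C)
    (hξ : ∀ (s : Finset ι) (x : X), ∑ i ∈ s, |ξ i x| ≤ C * ‖x‖)
    (hsum : ∀ x, HasSum (fun i => ξ i x • e i) x)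
    {Ω : Type*} [MeasurableSpace Ω] (μ : Measure Ω) [IsFiniteMeasure μ] (m : VectorMeasure Ω X)
    (V : ℝ) (hV : ∀ (n : ℕ) (A : Fin n → Set Ω), (∀ i, MeasurableSet (A i)) →
      Pairwise (Disjoint on A) → ∑ i, ‖m (A i)‖ ≤ V)
    (hac : ∀ A, MeasurableSet A → μ A = 0 → m A = 0) :
    ∃ f : Ω → X, Integrable f μ ∧ ∀ A, MeasurableSet A → m A = ∫ x in A, f x ∂μ := by
  -- the coordinate measures and their densities
  let sm : ι → SignedMeasure Ω := fun i =>
    m.mapRange (ξ i).toLinearMap.toAddMonoidHom (ξ i).continuous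
  have hsm : ∀ i A, sm i A = ξ i (m A) := fun i A => rfl
  have hsac : ∀ i, sm i ≪ᵥ μ.toENNRealVectorMeasure := by
    intro i
    refine VectorMeasure.AbsolutelyContinuous.mk (fun A hA h0 => ?_)
    rw [Measure.toENNRealVectorMeasure_apply_measurable hA] at h0
    rw [hsm, hac A hA h0, map_zero]
  let f : ι → Ω → ℝ := fun i => (sm i).rnDeriv μ
  have hfm : ∀ i, Measurable (f i) := fun i => SignedMeasure.measurable_rnDeriv _ _
  have hfi : ∀ i, Integrable (f i) μ := fun i => SignedMeasure.integrable_rnDeriv _ _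
  have hf : ∀ i A, MeasurableSet A → ξ i (m A) = ∫ x in A, f i x ∂μ := by
    intro i A hA
    have h1 := SignedMeasure.withDensityᵥ_rnDeriv_eq (sm i) μ (hsac i)
    have h2 : μ.withDensityᵥ ((sm i).rnDeriv μ) A = sm i A := by rw [h1]
    rw [withDensityᵥ_apply (hfi i) hA, hsm] at h2
    exact h2.symm
  have hbound := sum_integral_abs_le ξ C hC hξ μ m V hV f hfm hfi hf
  have hsabs : Summable (fun i => ∫ x, |f i x| ∂μ) :=
    summable_of_sum_le (fun i => integral_nonneg (fun x => abs_nonneg _)) hbound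
  -- the vector density
  let F : ι → Ω → X := fun i x => f i x • e i
  have hFi : ∀ i, Integrable (F i) μ := fun i => (hfi i).smul_const (e i)
  have hFn : ∀ i, ∫ x, ‖F i x‖ ∂μ = (∫ x, |f i x| ∂μ) * ‖e i‖ := by
    intro i
    rw [← integral_mul_const]
    refine integral_congr_ae (Eventually.of_forall (fun x => ?_))
    simp only [F, norm_smul, Real.norm_eq_abs]
  have hFs : Summable (fun i => ∫ x, ‖F i x‖ ∂μ) := by
    refine Summable.of_nonneg_of_le (fun i => integral_nonneg (fun x => norm_nonneg _))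
      (fun i => ?_) (hsabs.mul_right C)
    rw [hFn i]
    exact mul_le_mul_of_nonneg_left (he i) (integral_nonneg (fun x => abs_nonneg _))
  refine ⟨fun x => ∑' i, F i x, integrable_tsum_of hFi hFs, fun A hA => ?_⟩
  have hFiA : ∀ i, Integrable (F i) (μ.restrict A) := fun i => (hFi i).integrableOn
  have hFsA : Summable (fun i => ∫ x in A, ‖F i x‖ ∂μ) := by
    refine Summable.of_nonneg_of_le (fun i => integral_nonneg (fun x => norm_nonneg _))
      (fun i => ?_) hFs
    exact setIntegral_le_integral (hFi i).norm (Eventually.of_forall (fun x => norm_nonneg _))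
  have h6 := hasSum_integral_of_summable_integral_norm hFiA hFsA
  have h7 : ∀ i, ∫ x in A, F i x ∂μ = ξ i (m A) • e i := by
    intro i
    rw [hf i A hA]
    exact integral_smul_const _ _
  rw [funext h7] at h6
  exact (hsum (m A)).unique h6

end Pool.Agent.Helper30.BK
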