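import Mathlib
import Pool.Agent.Helper30.NILower
import Pool.Agent.Helper30.BK.RNP

set_option autoImplicit false

open MeasureTheory Filter Set
open scoped Topology NNReal ENNReal Function

namespace Pool.Agent.Helper30.BK

open Pool.Agent.Helper30

lemma blk_sum_le (p : F6) : ∑ i, |p i| ≤ 6 * ‖p‖ := by
  calc ∑ i, |p i| ≤ ∑ _i : Fin 6, ‖p‖ := Finset.sum_le_sum (fun i _ => abs_coord_le p i)
    _ = 6 * ‖p‖ := by simp

lemma W6_abs_summable (w : W6) : Summable (fun p : ℕ × Fin 6 => |w p.1 p.2|) := by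
  rw [summable_prod_of_nonneg (fun p => abs_nonneg _)]
  refine ⟨fun k => Summable.of_finite, ?_⟩
  refine Summable.of_nonneg_of_le (fun k => tsum_nonneg (fun i => abs_nonneg _)) (fun k => ?_)
    ((W6_summable_norm w).mul_left 6)
  rw [tsum_fintype]
  exact blk_sum_le (w k)

lemma W6_abs_tsum_le (w : W6) : ∑' p : ℕ × Fin 6, |w p.1 p.2| ≤ 6 * ‖w‖ := by
  have h1 := (W6_abs_summable w).hasSum.prod_fiberwise
    (g := fun k => ∑ i, |w k i|) (fun k => hasSum_fintype _)
  rw [W6_norm, ← tsum_mul_left]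
  exact hasSum_le (fun k => blk_sum_le (w k)) h1 ((W6_summable_norm w).mul_left 6).hasSum

/-- unit vectors of the block `k` -/
noncomputable def eW (p : ℕ × Fin 6) : W6 := lp.single 1 p.1 (Pi.single p.2 (1 : ℝ) : F6)

lemma eW_norm (p : ℕ × Fin 6) : ‖eW p‖ ≤ 1 := by
  rw [eW, single_norm, pi_norm_le_iff_of_nonneg zero_le_one]
  intro i
  by_cases h : i = p.2
  · subst h; simp
  · simp [Pi.single_eq_of_ne h]

lemma W6_hasSum (w : W6) : HasSum (fun p : ℕ × Fin 6 => w p.1 p.2 • eW p) w := by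
  have hs : Summable (fun p : ℕ × Fin 6 => w p.1 p.2 • eW p) := by
    refine Summable.of_norm_bounded (W6_abs_summable w) (fun p => ?_)
    rw [norm_smul, Real.norm_eq_abs]
    calc |w p.1 p.2| * ‖eW p‖ ≤ |w p.1 p.2| * 1 :=
          mul_le_mul_of_nonneg_left (eW_norm p) (abs_nonneg _)
      _ = |w p.1 p.2| := mul_one _
  have h1 := hs.hasSum.prod_fiberwise (g := fun k => (lp.single 1 k (w k) : W6)) (fun k => by
    have h2 := hasSum_fintype (fun i : Fin 6 => w k i • eW (k, i))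
    have h3 : ∑ i : Fin 6, w k i • eW (k, i) = (lp.single 1 k (w k) : W6) := by
      have h4 : ∀ i : Fin 6, w k i • eW (k, i) =
          (lp.single 1 k (w k i • (Pi.single i (1 : ℝ) : F6)) : W6) := by
        intro i
        rw [eW, lp.single_smul]
      rw [Finset.sum_congr rfl (fun i _ => h4 i)]
      have h5 : (w k : F6) = ∑ i, w k i • (Pi.single i (1 : ℝ) : F6) := by
        funext j
        simp [Finset.sum_apply, Pi.single_apply]
      conv_rhs => rw [h5]
      exact (map_sum (lp.singleAddMonoidHom (E := fun _ : ℕ => F6) 1 k) _ _).symm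
    rw [h3] at h2
    exact h2)
  have h6 := lp.hasSum_single (p := 1) (by simp) w
  have h7 := h1.unique h6
  have h8 := hs.hasSum
  rw [h7] at h8
  exact h8

/-- The index set of the coordinates of `XX`. -/
abbrev Ix : Type := Unit ⊕ (ℕ × Fin 6)

/-- the coordinate functionals -/
noncomputable def xi : Ix → XX →L[ℝ] ℝ
  | Sum.inl _ => fstX
  | Sum.inr p => (ev p.1 p.2).comp sndX

/-- the coordinate vectors -/
noncomputable def ee : Ix → XX
  | Sum.inl _ => mk 1 0
  | Sum.inr p => mk 0 (eW p)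

lemma ee_norm (i : Ix) : ‖ee i‖ ≤ 140 := by
  have key : ∀ y : ℝ × W6, ‖y‖ ≤ 1 → ‖mk y.1 y.2‖ ≤ 140 := by
    intro y hy
    have := toProd_symm_bound y
    have h2 : toProd.symm y = mk y.1 y.2 := rfl
    rw [h2] at this
    linarith
  rcases i with u | p
  · refine key (1, 0) ?_
    rw [Prod.norm_def]
    simp
  · refine key (0, eW p) ?_
    rw [Prod.norm_def]
    simpa using eW_norm p

lemma xi_hasSum (x : XX) : HasSum (fun i => xi i x • ee i) x := by
  let L : (ℝ × W6) →L[ℝ] XX := (toProdL.symm : (ℝ × W6) →L[ℝ] XX)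
  have hL : ∀ a w, L (a, w) = mk a w := fun a w => rfl
  have h1 : HasSum ((fun i => xi i x • ee i) ∘ Sum.inl) (mk x.1 0) := by
    have := hasSum_fintype ((fun i => xi i x • ee i) ∘ (Sum.inl : Unit → Ix))
    have h2 : ∑ u : Unit, ((fun i => xi i x • ee i) ∘ (Sum.inl : Unit → Ix)) u = mk x.1 0 := by
      rw [Fintype.sum_unique]
      change x.1 • mk 1 0 = mk x.1 0
      have e1 : x.1 • L (1, 0) = L (x.1 • ((1 : ℝ), (0 : W6))) := (map_smul L _ _).symm
      rw [hL] at e1
      rw [e1]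
      have e2 : x.1 • ((1 : ℝ), (0 : W6)) = (x.1, 0) := by
        rw [Prod.smul_mk, smul_zero, smul_eq_mul, mul_one]
      rw [e2, hL]
    rw [h2] at this
    exact this
  have h3 : HasSum ((fun i => xi i x • ee i) ∘ Sum.inr) (mk 0 x.2) := by
    let R : W6 →L[ℝ] XX := L.comp (ContinuousLinearMap.inr ℝ ℝ W6)
    have hR : ∀ w, R w = mk 0 w := fun w => rfl
    have h4 := (W6_hasSum x.2).mapL R
    rw [hR] at h4
    have h4' : (fun b : ℕ × Fin 6 => R (x.2 b.1 b.2 • eW b)) =
        (fun i => xi i x • ee i) ∘ Sum.inr := by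
      funext b
      rw [map_smul]
      rfl
    rw [h4'] at h4
    exact h4
  have h5 := h1.sum h3
  have h6 : mk x.1 0 + mk 0 x.2 = x := by
    have e1 : L (x.1, 0) + L (0, x.2) = L ((x.1, 0) + (0, x.2)) := (map_add L _ _).symm
    rw [hL, hL] at e1
    rw [e1, Prod.mk_add_mk, add_zero, zero_add]
    rfl
  rw [h6] at h5
  exact h5

lemma xi_sum_le (s : Finset Ix) (x : XX) : ∑ i ∈ s, |xi i x| ≤ 140 * ‖x‖ := by
  have h1 : HasSum ((fun i => |xi i x|) ∘ Sum.inl) |x.1| := by
    have := hasSum_fintype ((fun i => |xi i x|) ∘ (Sum.inl : Unit → Ix))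
    rw [Fintype.sum_unique] at this
    exact this
  have h2 : HasSum ((fun i => |xi i x|) ∘ Sum.inr) (∑' p : ℕ × Fin 6, |x.2 p.1 p.2|) :=
    (W6_abs_summable x.2).hasSum
  have h3 := sum_le_hasSum s (fun i _ => abs_nonneg (xi i x)) (h1.sum h2)
  have h4 := W6_abs_tsum_le x.2
  have h5 := XX_norm_fst x
  have h6 := XX_norm_C x
  have h7 := norm_nonneg x
  unfold kap at h6
  linarith

/-- `XX` has the Radon-Nikodym property in the form with vector measures. -/
theorem XX_rnp_measure {Ω : Type*} [MeasurableSpace Ω] (μ : Measure Ω) [IsFiniteMeasure μ]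
    (m : VectorMeasure Ω XX) (V : ℝ)
    (hV : ∀ (n : ℕ) (A : Fin n → Set Ω), (∀ i, MeasurableSet (A i)) →
      Pairwise (Disjoint on A) → ∑ i, ‖m (A i)‖ ≤ V)
    (hac : ∀ A, MeasurableSet A → μ A = 0 → m A = 0) :
    ∃ f : Ω → XX, Integrable f μ ∧ ∀ A, MeasurableSet A → m A = ∫ x in A, f x ∂μ :=
  rnp_of_coord xi ee 140 (by norm_num) ee_norm xi_sum_le xi_hasSum μ m V hV hac

end Pool.Agent.Helper30.BK
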